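import Pool.Agent.MP_2c73ad_mp.H74.Both

/-! The March-Young bound in three dimensions with both exact constants and a cross term of lower
order. -/

open MeasureTheory Pool.Agent.MP_2c73ad_mp.H42

namespace Pool.Agent.Results.MP_2c73ad_mp.CrossTerm

theorem result : ∃ C : ℝ, 0 < C ∧ ∀ (q N : ℕ), 1 ≤ q → 1 ≤ N →
    ∀ (ρ : (Fin 3 → ℝ) → ℝ) (G : Fin 3 → (Fin 3 → ℝ) → ℝ),
      (∀ x, 0 ≤ ρ x) → ∫ x, ρ x = N → InH1 (fun x => √(ρ x)) G →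
      ∃ (φ : Fin N → Fin q → (Fin 3 → ℝ) → ℂ) (D : Fin N → Fin q → Fin 3 → (Fin 3 → ℝ) → ℂ),
        (∀ i σ, InH1 (φ i σ) (D i σ)) ∧
        (∀ i j, ∑ σ, ∫ x, (starRingEnd ℂ) (φ i σ x) * φ j σ x = if i = j then 1 else 0) ∧
        (∀ᵐ x, ∑ i, ∑ σ, ‖φ i σ x‖ ^ 2 = ρ x) ∧
        ENNReal.ofReal (∑ i, ∑ σ, ∑ k, ∫ x, ‖D i σ k x‖ ^ 2) ≤
          ENNReal.ofReal ((q : ℝ) ^ (-(2 / 3) : ℝ) *
                (3 / 5 * (6 * Real.pi ^ 2) ^ (2 / 3 : ℝ))) *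
              (∫⁻ x, ENNReal.ofReal (ρ x ^ (5 / 3 : ℝ))) +
            ENNReal.ofReal (∑ k, ∫ x, G k x ^ 2) +
            ENNReal.ofReal C * (ENNReal.ofReal ((q : ℝ) ^ (-(2 / 3) : ℝ)) *
                ∫⁻ x, ENNReal.ofReal (ρ x ^ (5 / 3 : ℝ))) ^ (52 / 53 : ℝ) *
              ENNReal.ofReal (∑ k, ∫ x, G k x ^ 2) ^ (1 / 53 : ℝ) :=
  Pool.Agent.MP_2c73ad_mp.H74.cross

end Pool.Agent.Results.MP_2c73ad_mp.CrossTerm
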